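import Mathlib
import Pool.Agent.R282.NWDefs
import Pool.Agent.R282.NW4

/-!
# A `Ba(C_p(K))`-measurable measure outside the sequential closure of the Dirac measures

Negative answer to Q1 of MP_44758c_an, in ZFC.  Let `S` be the tree of finite sequences of natural
numbers, `T = S × ℤ`, and let `F` be the filter of subsets of `S` with nowhere dense complement.
For `x ∈ [0,1]` and `s ∈ S` let `pos s x = (s, ⌊2^n x⌋)`, where `n` is the code of `s`.  `K` is the
Stone space of the algebra of all `A ⊆ T` such that for almost every `x` either `pos s x ∈ A` for
`F`-almost all `s` or `pos s x ∉ A` for `F`-almost all `s`; `μ(A)` is the Lebesgue measure of the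
set of `x` of the first kind.  `μ` is Baire measurable as `F` is a Borel filter; the set of
probability measures singular to `μ` contains the Dirac measures and is weak* sequentially closed.
-/

namespace Pool.Agent.Results.MP_44758c_an.BaireNotSeq

open MeasureTheory Filter Topology Set Pool.Agent.R282.NW

/-- **Main result** (Q1 of MP_44758c_an is disproved). -/
theorem result : ∃ (K : Type) (_ : TopologicalSpace K) (_ : CompactSpace K) (_ : T2Space K)
    (_ : MeasurableSpace K) (_ : BorelSpace K) (μ : Measure K),
    TopologicalSpace.SeparableSpace K ∧ IsProbabilityMeasure μ ∧ μ.Regular ∧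
      @Measurable C(K, ℝ) ℝ (baireCp K) _ (integ μ) ∧ integ μ ∉ seqCoDirac K := by
  refine ⟨Pool.Agent.R282.NW.K, inferInstance, inferInstance, inferInstance, inferInstance,
    inferInstance, mu, ?_, inferInstance, inferInstance, measurable_int, fun h => ?_⟩
  · exact ⟨range pt, countable_range pt, dense_pt⟩
  · rw [integ_mu] at h
    exact Lam_notMem (seq_subset_sing h)

end Pool.Agent.Results.MP_44758c_an.BaireNotSeq
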